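import Pool.Agent.TH910.Voj.DiscNorm

set_option autoImplicit false

/-!
If an integer `ζ` of `K` lies in the prime ideals over `p` which are not marked and its norm is not
divisible by `p ^ (s + 1)`, then `p ^ ([K : ℚ] - s)` is at most the product of a divisor of the
discriminant of `K` and of the norms of the marked prime ideals over `p`.
-/

namespace Pool.Agent.R366.TC

open NumberField UniqueFactorizationMonoid IsDedekindDomain

theorem disc_part_marked {K : Type*} [Field K] [NumberField K] {p s : ℕ} (hp : p.Prime) (ζ : 𝓞 K)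
    (m : HeightOneSpectrum (𝓞 K) → Prop)
    (h : ∀ v : HeightOneSpectrum (𝓞 K), (p : 𝓞 K) ∈ v.asIdeal → ¬ m v → ζ ∈ v.asIdeal)
    (hζ : ¬ (p : ℤ) ^ (s + 1) ∣ Algebra.norm ℤ ζ) :
    ∃ (D : ℕ) (V : Finset (HeightOneSpectrum (𝓞 K))), D ∣ p ^ Module.finrank ℚ K ∧
      D ∣ (NumberField.discr K).natAbs ∧ (∀ v ∈ V, (p : 𝓞 K) ∈ v.asIdeal ∧ m v) ∧
      p ^ (Module.finrank ℚ K) ≤ D * (p ^ s * ∏ v ∈ V, Ideal.absNorm v.asIdeal) := by
  classical
  have hpZ : _root_.Prime (p : ℤ) := Nat.prime_iff_prime_int.mp hp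
  have hmax : (Ideal.span {(p : ℤ)}).IsMaximal :=
    PrincipalIdealRing.isMaximal_of_irreducible hpZ.irreducible
  have hp0 : (p : 𝓞 K) ≠ 0 := by exact_mod_cast hp.ne_zero
  set P : Ideal (𝓞 K) := Ideal.span {(p : 𝓞 K)} with hP
  have hPne : P ≠ ⊥ := by rw [hP, Ne, Ideal.span_singleton_eq_bot]; exact hp0
  have hPmap : Ideal.map (algebraMap ℤ (𝓞 K)) (Ideal.span {(p : ℤ)}) = P := by
    rw [Ideal.map_span, Set.image_singleton]; simp [hP]
  set s' := (normalizedFactors P).toFinset with hs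
  set e : Ideal (𝓞 K) → ℕ := fun 𝔮 => (normalizedFactors P).count 𝔮 with he
  have hprod : ∏ 𝔮 ∈ s', 𝔮 ^ e 𝔮 = P := by
    rw [hs, he, ← Finset.prod_multiset_count]
    exact Ideal.prod_normalizedFactors_eq_self hPne
  have hprime : ∀ 𝔮 ∈ s', _root_.Prime 𝔮 := fun 𝔮 h𝔮 =>
    prime_of_normalized_factor 𝔮 (Multiset.mem_toFinset.mp h𝔮)
  have hne : ∀ 𝔮 ∈ s', 𝔮 ≠ ⊥ := fun 𝔮 h𝔮 => (hprime 𝔮 h𝔮).ne_zero
  have hpr : ∀ 𝔮 ∈ s', 𝔮.IsPrime := fun 𝔮 h𝔮 => Ideal.isPrime_of_prime (hprime 𝔮 h𝔮)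
  have hmx : ∀ 𝔮 ∈ s', 𝔮.IsMaximal := fun 𝔮 h𝔮 => (hpr 𝔮 h𝔮).isMaximal (hne 𝔮 h𝔮)
  have hdvd : ∀ 𝔮 ∈ s', 𝔮 ^ e 𝔮 ∣ P := fun 𝔮 h𝔮 => by
    rw [← hprod]; exact Finset.dvd_prod_of_mem (fun 𝔮 => 𝔮 ^ e 𝔮) h𝔮
  have hmem : ∀ 𝔮 ∈ s', (p : 𝓞 K) ∈ 𝔮 := fun 𝔮 h𝔮 => by
    have h1 : 𝔮 ∣ P := dvd_of_mem_normalizedFactors (Multiset.mem_toFinset.mp h𝔮)
    exact Ideal.dvd_iff_le.mp h1 (Ideal.mem_span_singleton_self _)
  have he1 : ∀ 𝔮 ∈ s', 1 ≤ e 𝔮 := fun 𝔮 h𝔮 =>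
    Multiset.count_pos.mpr (Multiset.mem_toFinset.mp h𝔮)
  set J : Ideal (𝓞 K) := ∏ 𝔮 ∈ s', 𝔮 ^ (e 𝔮 - 1) with hJ
  set I : Ideal (𝓞 K) := ∏ 𝔮 ∈ s', 𝔮 with hI
  have hJI : J * I = P := by
    rw [hJ, hI, ← Finset.prod_mul_distrib, ← hprod]
    refine Finset.prod_congr rfl fun 𝔮 h𝔮 => ?_
    rw [← pow_succ, Nat.sub_add_cancel (he1 𝔮 h𝔮)]
  have hJd : J ∣ differentIdeal ℤ (𝓞 K) := by
    refine Finset.prod_dvd_of_coprime ?_ ?_
    · intro 𝔮 h𝔮 𝔯 h𝔯 hne'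
      have := hmx 𝔮 h𝔮
      have := hmx 𝔯 h𝔯
      exact (Ideal.isCoprime_of_isMaximal hne').pow
    · intro 𝔮 h𝔮
      refine pow_sub_one_dvd_differentIdeal ℤ 𝔮 (e 𝔮) (p := Ideal.span {(p : ℤ)}) ?_ ?_
      · rw [Ne, Ideal.span_singleton_eq_bot]; exact hpZ.ne_zero
      · rw [hPmap]; exact hdvd 𝔮 h𝔮
  -- the prime ideals over `p` as elements of the spectrum
  set W : Finset (HeightOneSpectrum (𝓞 K)) :=
    s'.attach.image (fun 𝔮 => ⟨𝔮.1, hpr 𝔮.1 𝔮.2, hne 𝔮.1 𝔮.2⟩) with hW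
  have hWs : ∀ v ∈ W, v.asIdeal ∈ s' := by
    intro v hv
    obtain ⟨𝔮, -, rfl⟩ := Finset.mem_image.mp hv
    exact 𝔮.2
  have hIW : I = ∏ v ∈ W, v.asIdeal := by
    rw [hI, hW, Finset.prod_image]
    · exact (Finset.prod_attach s' (fun 𝔮 => 𝔮)).symm
    · intro a _ b _ hab
      exact Subtype.ext (congrArg HeightOneSpectrum.asIdeal hab)
  set W1 := W.filter fun v => ¬ m v with hW1
  set V := W.filter fun v => m v with hV
  set I1 : Ideal (𝓞 K) := ∏ v ∈ W1, v.asIdeal with hI1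
  have hI12 : I = (∏ v ∈ V, v.asIdeal) * I1 := by
    rw [hIW, hI1, hV, hW1, Finset.prod_filter_mul_prod_filter_not]
  have hIζ : I1 ∣ Ideal.span {ζ} := by
    refine Finset.prod_dvd_of_coprime ?_ ?_
    · intro v hv w hw hne'
      have := hmx _ (hWs v (Finset.mem_filter.mp hv).1)
      have := hmx _ (hWs w (Finset.mem_filter.mp hw).1)
      exact Ideal.isCoprime_of_isMaximal fun hvw => hne' (HeightOneSpectrum.ext hvw)
    · intro v hv
      obtain ⟨h1, h2⟩ := Finset.mem_filter.mp hv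
      rw [Ideal.dvd_iff_le, Ideal.span_singleton_le_iff_mem]
      exact h v (hmem _ (hWs v h1)) h2
  have hnP : Ideal.absNorm P = p ^ Module.finrank ℚ K := by
    rw [hP, Ideal.absNorm_span_natCast, RingOfIntegers.rank]
  have hJP : J ∣ P := ⟨I, hJI.symm⟩
  have hIP : I1 ∣ P := by
    refine ⟨J * ∏ v ∈ V, v.asIdeal, ?_⟩
    rw [← hJI, hI12]
    ring
  have hD1 : Ideal.absNorm J ∣ p ^ Module.finrank ℚ K := by
    rw [← hnP]; exact Ideal.absNorm_dvd_absNorm_of_le (Ideal.dvd_iff_le.mp hJP)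
  have hD2 : Ideal.absNorm I1 ∣ p ^ Module.finrank ℚ K := by
    rw [← hnP]; exact Ideal.absNorm_dvd_absNorm_of_le (Ideal.dvd_iff_le.mp hIP)
  refine ⟨Ideal.absNorm J, V, hD1, ?_, ?_, ?_⟩
  · have h4 := Ideal.absNorm_dvd_absNorm_of_le (Ideal.dvd_iff_le.mp hJd)
    rwa [NumberField.absNorm_differentIdeal K (𝓞 K)] at h4
  · intro v hv
    obtain ⟨h1, h2⟩ := Finset.mem_filter.mp hv
    exact ⟨hmem _ (hWs v h1), h2⟩
  · have h1 : Ideal.absNorm J * Ideal.absNorm I = p ^ Module.finrank ℚ K := by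
      rw [← map_mul, hJI, hnP]
    rw [← h1]
    refine Nat.mul_le_mul_left _ ?_
    rw [hI12, map_mul, map_prod, mul_comm]
    refine Nat.mul_le_mul_right _ ?_
    obtain ⟨t, -, ht⟩ := (Nat.dvd_prime_pow hp).mp hD2
    have h2 := Ideal.absNorm_dvd_absNorm_of_le (Ideal.dvd_iff_le.mp hIζ)
    rw [Ideal.absNorm_span_singleton, ht] at h2
    have h3 : t ≤ s := by
      by_contra hcon
      apply hζ
      have h4 : (p : ℤ) ^ t ∣ Algebra.norm ℤ ζ := by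
        rw [← Nat.cast_pow, Int.natCast_dvd]; exact h2
      exact (pow_dvd_pow _ (by omega)).trans h4
    rw [ht]
    exact Nat.pow_le_pow_right hp.pos h3

/-- a prime ideal contains at most one prime number -/
lemma prime_unique {K : Type*} [Field K] [NumberField K] (v : HeightOneSpectrum (𝓞 K)) {p q : ℕ}
    (hp : p.Prime) (hq : q.Prime) (hpv : (p : 𝓞 K) ∈ v.asIdeal) (hqv : (q : 𝓞 K) ∈ v.asIdeal) :
    p = q := by
  by_contra hne
  have hco : IsCoprime (p : ℤ) (q : ℤ) := by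
    rw [Nat.isCoprime_iff_coprime]
    exact (Nat.coprime_primes hp hq).mpr hne
  obtain ⟨a, b, hab⟩ := hco
  have h1 : (1 : 𝓞 K) = (a : 𝓞 K) * (p : 𝓞 K) + (b : 𝓞 K) * (q : 𝓞 K) := by
    have := congrArg (fun i : ℤ => (i : 𝓞 K)) hab
    push_cast at this
    exact this.symm
  apply v.isPrime.ne_top
  rw [Ideal.eq_top_iff_one, h1]
  exact Ideal.add_mem _ (Ideal.mul_mem_left _ _ hpv) (Ideal.mul_mem_left _ _ hqv)

theorem sum_log_le_marked {K : Type*} [Field K] [NumberField K] (S : Finset ℕ)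
    (hS : ∀ p ∈ S, p.Prime) (s : ℕ → ℕ) (m : HeightOneSpectrum (𝓞 K) → Prop)
    (h : ∀ p ∈ S, ∃ ζ : 𝓞 K, (∀ v : HeightOneSpectrum (𝓞 K), (p : 𝓞 K) ∈ v.asIdeal → ¬ m v →
      ζ ∈ v.asIdeal) ∧ ¬ (p : ℤ) ^ (s p + 1) ∣ Algebra.norm ℤ ζ) :
    ∃ V : Finset (HeightOneSpectrum (𝓞 K)),
      (∀ v ∈ V, m v ∧ ∃ p ∈ S, (p : 𝓞 K) ∈ v.asIdeal) ∧
      ∑ p ∈ S, (1 - (s p : ℝ) / Module.finrank ℚ K) * Real.log p ≤
        Real.log |(NumberField.discr K : ℝ)| / Module.finrank ℚ K +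
          (∑ v ∈ V, Real.log (Ideal.absNorm v.asIdeal)) / Module.finrank ℚ K := by
  classical
  set n := Module.finrank ℚ K with hn
  have hm0 : (0 : ℝ) < n := by exact_mod_cast Module.finrank_pos
  have hex : ∀ p : ℕ, ∃ (D : ℕ) (V : Finset (HeightOneSpectrum (𝓞 K))), p ∈ S → (D ∣ p ^ n ∧
      D ∣ (NumberField.discr K).natAbs ∧ (∀ v ∈ V, (p : 𝓞 K) ∈ v.asIdeal ∧ m v) ∧
      p ^ n ≤ D * (p ^ (s p) * ∏ v ∈ V, Ideal.absNorm v.asIdeal)) := by
    intro p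
    by_cases hpS : p ∈ S
    · obtain ⟨ζ, h1, h2⟩ := h p hpS
      obtain ⟨D, V, hD⟩ := disc_part_marked (K := K) (hS p hpS) ζ m h1 h2
      exact ⟨D, V, fun _ => hD⟩
    · exact ⟨1, ∅, fun h => absurd h hpS⟩
  choose D V hD using hex
  have hd0 : NumberField.discr K ≠ 0 := NumberField.discr_ne_zero _
  have hdp : 0 < (NumberField.discr K).natAbs := Int.natAbs_pos.mpr hd0
  have h1 : ∏ p ∈ S, D p ∣ (NumberField.discr K).natAbs := by
    refine Finset.prod_dvd_of_isRelPrime ?_ fun p hp => (hD p hp).2.1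
    intro p hp q hq hpq
    rw [Function.onFun, ← Nat.coprime_iff_isRelPrime]
    have h2 : Nat.Coprime (p ^ n) (q ^ n) :=
      Nat.Coprime.pow _ _ ((Nat.coprime_primes (hS p hp) (hS q hq)).mpr hpq)
    exact (h2.coprime_dvd_left (hD p hp).1).coprime_dvd_right (hD q hq).1
  have h2 := Nat.le_of_dvd hdp h1
  have hDpos : ∀ p ∈ S, 0 < D p := fun p hp => Nat.pos_of_dvd_of_pos (hD p hp).2.1 hdp
  have h3 : ∑ p ∈ S, Real.log (D p) ≤ Real.log |(NumberField.discr K : ℝ)| := by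
    rw [← Real.log_prod (fun p hp => by exact_mod_cast (hDpos p hp).ne')]
    have h4 : ((NumberField.discr K).natAbs : ℝ) = |(NumberField.discr K : ℝ)| := by
      rw [Nat.cast_natAbs]; push_cast; rfl
    rw [← h4]
    refine Real.log_le_log ?_ (by exact_mod_cast h2)
    exact_mod_cast Finset.prod_pos hDpos
  have hVdisj : (S : Set ℕ).PairwiseDisjoint V := by
    intro p hp q hq hpq
    rw [Function.onFun, Finset.disjoint_left]
    intro v hv hv'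
    exact hpq (prime_unique v (hS p hp) (hS q hq) ((hD p hp).2.2.1 v hv).1
      ((hD q hq).2.2.1 v hv').1)
  refine ⟨S.biUnion V, ?_, ?_⟩
  · intro v hv
    obtain ⟨p, hp, hpv⟩ := Finset.mem_biUnion.mp hv
    exact ⟨((hD p hp).2.2.1 v hpv).2, p, hp, ((hD p hp).2.2.1 v hpv).1⟩
  · rw [Finset.sum_biUnion hVdisj, ← add_div, le_div_iff₀ hm0, Finset.sum_mul]
    refine le_trans ?_ (add_le_add h3 le_rfl)
    rw [← Finset.sum_add_distrib]
    refine Finset.sum_le_sum fun p hp => ?_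
    have hpp : (0 : ℝ) < p := by exact_mod_cast (hS p hp).pos
    have hDp : (0 : ℝ) < D p := by exact_mod_cast hDpos p hp
    have hVp : ∀ v ∈ V p, (0 : ℝ) < (Ideal.absNorm v.asIdeal : ℝ) := by
      intro v _
      have := NumberField.HeightOneSpectrum.one_lt_absNorm v
      exact_mod_cast (by omega : 0 < Ideal.absNorm v.asIdeal)
    have hVpp : (0 : ℝ) < ∏ v ∈ V p, (Ideal.absNorm v.asIdeal : ℝ) := Finset.prod_pos hVp
    have h5 : ((p : ℝ) ^ n) ≤ (D p : ℝ) * ((p : ℝ) ^ (s p) *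
        ∏ v ∈ V p, (Ideal.absNorm v.asIdeal : ℝ)) := by
      exact_mod_cast (hD p hp).2.2.2
    have h6 := Real.log_le_log (by positivity) h5
    rw [Real.log_pow, Real.log_mul hDp.ne' (by positivity),
      Real.log_mul (by positivity) hVpp.ne', Real.log_pow,
      Real.log_prod (fun v hv => (hVp v hv).ne')] at h6
    have h7 : (1 - (s p : ℝ) / n) * Real.log p * n = n * Real.log p - s p * Real.log p := by
      field_simp
    rw [h7]
    linarith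

end Pool.Agent.R366.TC
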