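import Pool.Agent.R366.TC.Local
import Pool.Agent.TH910.Voj.NormModel

set_option autoImplicit false

/-!
Norms of the specialisations of a local generator of a part of the reduced preimage (adapted from
`TH910/Voj/NormModel`).
-/

namespace Pool.Agent.R366.TC

open NumberField MvPolynomial IsDedekindDomain Pool.Agent.TH910.Voj

/-- an integer not divisible by the prime below `v` is a unit at `v` -/
lemma val_int_one {K : Type} [Field K] [NumberField K] (v : HeightOneSpectrum (𝓞 K)) {p : ℕ}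
    (hp : p.Prime) (hpv : (p : 𝓞 K) ∈ v.asIdeal) {c : ℤ} (hc : ¬ (p : ℤ) ∣ c) :
    v.valuation K (c : K) = 1 := by
  have hpZ : _root_.Prime (p : ℤ) := Nat.prime_iff_prime_int.mp hp
  have h1 : (c : K) = algebraMap (𝓞 K) K (c : 𝓞 K) := by simp
  rw [h1]
  rw [HeightOneSpectrum.valuation_of_algebraMap]
  by_contra hne
  have h2 : v.intValuation (c : 𝓞 K) < 1 := lt_of_le_of_ne (v.intValuation_le_one _) hne
  rw [HeightOneSpectrum.intValuation_lt_one_iff_mem] at h2
  obtain ⟨r, t, hrt⟩ : IsCoprime (p : ℤ) c := (hpZ.coprime_iff_not_dvd).mpr hc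
  have h3 : (1 : 𝓞 K) ∈ v.asIdeal := by
    have h4 : (1 : 𝓞 K) = (r : 𝓞 K) * (p : 𝓞 K) + (t : 𝓞 K) * (c : 𝓞 K) := by
      have := congrArg (fun i : ℤ => (i : 𝓞 K)) hrt
      push_cast at this
      exact this.symm
    rw [h4]
    exact Ideal.add_mem _ (Ideal.mul_mem_left _ _ hpv) (Ideal.mul_mem_left _ _ h2)
  exact v.isPrime.ne_top ((Ideal.eq_top_iff_one _).mpr h3)

lemma val_int_lt {K : Type} [Field K] [NumberField K] (v : HeightOneSpectrum (𝓞 K)) {p : ℕ}
    (hpv : (p : 𝓞 K) ∈ v.asIdeal) {c : ℤ} (hc : (p : ℤ) ∣ c) :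
    v.valuation K (c : K) < 1 := by
  have h1 : (c : K) = algebraMap (𝓞 K) K (c : 𝓞 K) := by simp
  rw [h1, HeightOneSpectrum.valuation_of_algebraMap, HeightOneSpectrum.intValuation_lt_one_iff_mem]
  obtain ⟨d, rfl⟩ := hc
  push_cast
  exact Ideal.mul_mem_right _ _ hpv

/-- the case of the whole preimage: the point meets it at all primes over `p` -/
theorem exists_norm_full {n : ℕ} {A : Type} [CommRing A] [IsDomain A]
    [Algebra (MvPolynomial (Fin n) ℚ) A] [Module.Finite (MvPolynomial (Fin n) ℚ) A]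
    (F : MvPolynomial (Fin n) ℤ) (hF : Irreducible (toQ F)) (s : ℕ)
    {u : ℕ} (y : Fin u → A)
    (hy : ∀ i, y i ∈ (Ideal.span {algebraMap (MvPolynomial (Fin n) ℚ) A (toQ F)}).radical) :
    ∃ g : MvPolynomial (Fin n) ℤ, ¬ toQ F ∣ toQ g ∧
      ∀ (K : Type) [Field K] [NumberField K] (φ : A →+* K) (x : Fin n → ℤ),
        (∀ i, φ (algebraMap (MvPolynomial (Fin n) ℚ) A (X i)) = x i) →
        ∀ p : ℕ, p.Prime → (p : ℤ) ∣ eval x F → ¬ (p : ℤ) ∣ eval x g →
          ∃ ζ : 𝓞 K, (∀ v : HeightOneSpectrum (𝓞 K), (p : 𝓞 K) ∈ v.asIdeal →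
              ¬ (∀ i, v.valuation K (φ (y i)) < 1) → ζ ∈ v.asIdeal) ∧
            ¬ (p : ℤ) ^ (s + 1) ∣ Algebra.norm ℤ ζ := by
  classical
  let _ : Algebra (MvPolynomial (Fin n) ℤ) A :=
    ((algebraMap (MvPolynomial (Fin n) ℚ) A).comp toQ).toAlgebra
  have hA : algebraMap (MvPolynomial (Fin n) ℤ) A =
      (algebraMap (MvPolynomial (Fin n) ℚ) A).comp toQ := rfl
  have hA' : ∀ G : MvPolynomial (Fin n) ℤ, algebraMap (MvPolynomial (Fin n) ℤ) A G =
      algebraMap (MvPolynomial (Fin n) ℚ) A (toQ G) := fun G => rfl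
  have hclear := exists_int_mul_isIntegral (n := n) (A := A) hA
  have hFprime : Prime (toQ F) := hF.prime
  have hpow : ∀ i, ∃ (E : ℕ) (b : A),
      y i ^ E = algebraMap (MvPolynomial (Fin n) ℚ) A (toQ F) * b := by
    intro i
    obtain ⟨E, hE⟩ := hy i
    exact ⟨E, Ideal.mem_span_singleton.mp hE⟩
  choose E b hEb using hpow
  choose N₄ hN₄0 hN₄ using fun l => hclear (b l)
  refine ⟨C (∏ l, N₄ l), ?_, ?_⟩
  · have h2 : toQ (C (∏ l, N₄ l) : MvPolynomial (Fin n) ℤ) = C ((∏ l, N₄ l : ℤ) : ℚ) :=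
      (MvPolynomial.map_C _ _).trans rfl
    rw [h2]
    intro hd
    have h3 : (∏ l, N₄ l : ℤ) ≠ 0 := Finset.prod_ne_zero_iff.mpr fun l _ => hN₄0 l
    exact hFprime.not_isUnit (isUnit_of_dvd_unit hd
      (IsUnit.map C (isUnit_iff_ne_zero.mpr (by exact_mod_cast h3))))
  · intro K _ _ φ x hφ p hp hpF hpg
    rw [eval_C] at hpg
    set xq : Fin n → ℚ := fun i => (x i : ℚ) with hxq
    have hφQ : ∀ G : MvPolynomial (Fin n) ℚ,
        φ (algebraMap (MvPolynomial (Fin n) ℚ) A G) = ((eval xq G : ℚ) : K) := by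
      intro G
      have h1 : φ.comp (algebraMap (MvPolynomial (Fin n) ℚ) A) =
          (Rat.castHom K).comp (eval xq) := by
        refine MvPolynomial.ringHom_ext' ?_ ?_
        · exact RingHom.ext_rat _ _
        · intro i
          simp only [RingHom.comp_apply, eval_X, hφ i, hxq]
          simp
      exact congrArg (fun f : MvPolynomial (Fin n) ℚ →+* K => f G) h1
    have hφR : ∀ G : MvPolynomial (Fin n) ℤ,
        φ (algebraMap (MvPolynomial (Fin n) ℤ) A G) = ((eval x G : ℤ) : K) := by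
      intro G
      rw [hA', hφQ, hxq, eval_toQ]
      simp
    have hint : ∀ a : A, IsIntegral (MvPolynomial (Fin n) ℤ) a → φ a ∈ integralClosure ℤ K := by
      intro a h1
      refine IsIntegral.map_of_comp_eq (eval x) φ ?_ h1
      refine RingHom.ext fun G => ?_
      rw [RingHom.comp_apply, RingHom.comp_apply, hφR]
      simp
    refine ⟨1, ?_, ?_⟩
    · intro v hmem hnm
      exfalso
      apply hnm
      intro l
      have hpl : ¬ (p : ℤ) ∣ N₄ l := fun hd => hpg (hd.trans (Finset.dvd_prod_of_mem N₄ (Finset.mem_univ l)))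
      have e3 : v.valuation K (φ (b l)) ≤ 1 := by
        have h1 : v.valuation K (φ ((N₄ l : A) * b l)) ≤ 1 :=
          v.valuation_le_one (⟨φ ((N₄ l : A) * b l), hint _ (hN₄ l)⟩ : 𝓞 K)
        rwa [map_mul, map_intCast, map_mul, val_int_one v hp hmem hpl, one_mul] at h1
      have e4 := val_int_lt (K := K) v hmem hpF
      have h1 := congrArg φ (hEb l)
      rw [map_mul, map_pow, hφQ, hxq, eval_toQ] at h1
      have h2 := congrArg (v.valuation K) h1
      rw [map_mul, map_pow] at h2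
      have h3 : v.valuation K (((eval x F : ℤ) : ℚ) : K) < 1 := by
        rw [Rat.cast_intCast]
        exact e4
      by_contra hge
      push Not at hge
      have h4 : (1 : _) ≤ v.valuation K (φ (y l)) ^ E l := one_le_pow₀ hge
      rw [h2] at h4
      exact absurd h4 (not_le.mpr (mul_lt_one_of_nonneg_of_lt_one_left zero_le h3 e3))
    · rw [map_one]
      intro hd
      have h1 : (p : ℤ) ∣ 1 := (dvd_pow_self (p : ℤ) (by omega)).trans hd
      exact (Nat.prime_iff_prime_int.mp hp).not_isUnit (isUnit_of_dvd_one h1)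

theorem exists_norm_part {n : ℕ} {A : Type} [CommRing A] [IsDomain A] [IsIntegrallyClosed A]
    [Algebra (MvPolynomial (Fin n) ℚ) A] [Module.Finite (MvPolynomial (Fin n) ℚ) A]
    [FaithfulSMul (MvPolynomial (Fin n) ℚ) A]
    (F : MvPolynomial (Fin n) ℤ) (hF : Irreducible (toQ F)) (s N : ℕ)
    (hN : Module.finrank (MvPolynomial (Fin n) ℚ) A = N)
    (𝔈 : Ideal A) (hFE : algebraMap (MvPolynomial (Fin n) ℚ) A (toQ F) ∈ 𝔈) {u : ℕ} (y : Fin u → A)
    (hy : ∀ i, ∀ e ∈ 𝔈,
      y i * e ∈ (Ideal.span {algebraMap (MvPolynomial (Fin n) ℚ) A (toQ F)}).radical)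
    (hs : PartLE 𝔈 (toQ F) s) :
    ∃ g : MvPolynomial (Fin n) ℤ, ¬ toQ F ∣ toQ g ∧
      ∀ (K : Type) [Field K] [NumberField K] (φ : A →+* K) (x : Fin n → ℤ),
        Function.Surjective φ → Module.finrank ℚ K = N →
        (∀ i, φ (algebraMap (MvPolynomial (Fin n) ℚ) A (X i)) = x i) →
        ∀ p : ℕ, p.Prime → (p : ℤ) ∣ eval x F → ¬ (p : ℤ) ^ 2 ∣ eval x F →
          ¬ (p : ℤ) ∣ eval x g →
          ∃ ζ : 𝓞 K, (∀ v : HeightOneSpectrum (𝓞 K), (p : 𝓞 K) ∈ v.asIdeal →
              ¬ (∀ i, v.valuation K (φ (y i)) < 1) → ζ ∈ v.asIdeal) ∧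
            ¬ (p : ℤ) ^ (s + 1) ∣ Algebra.norm ℤ ζ := by
  classical
  let _ : Algebra (MvPolynomial (Fin n) ℤ) A :=
    ((algebraMap (MvPolynomial (Fin n) ℚ) A).comp toQ).toAlgebra
  have hA : algebraMap (MvPolynomial (Fin n) ℤ) A =
      (algebraMap (MvPolynomial (Fin n) ℚ) A).comp toQ := rfl
  have hA' : ∀ G : MvPolynomial (Fin n) ℤ, algebraMap (MvPolynomial (Fin n) ℤ) A G =
      algebraMap (MvPolynomial (Fin n) ℚ) A (toQ G) := fun G => rfl
  have hclear := exists_int_mul_isIntegral (n := n) (A := A) hA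
  have hFprime : Prime (toQ F) := hF.prime
  obtain ⟨ω, z, g₀, M, E, b, hg₀, hM, hdet, hspan, hzE⟩ :=
    local_part (A := A) (toQ F) hFprime s N hN 𝔈 hFE y hy hs
  obtain ⟨N₁, hN₁0, hN₁⟩ := hclear z
  obtain ⟨N₄, hN₄0, hN₄⟩ : ∃ N₄ : ℤ, N₄ ≠ 0 ∧
      ∀ l, IsIntegral (MvPolynomial (Fin n) ℤ) ((N₄ : A) * b l) := by
    choose N₄ hN₄0 hN₄ using fun l => hclear (b l)
    refine ⟨∏ l, N₄ l, Finset.prod_ne_zero_iff.mpr fun l _ => hN₄0 l, fun l => ?_⟩
    have h1 : ((∏ l, N₄ l : ℤ) : A) * b l =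
        ((∏ l' ∈ Finset.univ.erase l, N₄ l' : ℤ) : A) * ((N₄ l : A) * b l) := by
      rw [← Finset.mul_prod_erase Finset.univ N₄ (Finset.mem_univ l)]
      push_cast
      ring
    rw [h1]
    refine IsIntegral.mul ?_ (hN₄ l)
    have h2 : (((∏ l' ∈ Finset.univ.erase l, N₄ l' : ℤ)) : A) =
        algebraMap (MvPolynomial (Fin n) ℤ) A ((∏ l' ∈ Finset.univ.erase l, N₄ l' : ℤ) : _) := by
      rw [map_intCast]
    rw [h2]
    exact isIntegral_algebraMap
  obtain ⟨N₂, hN₂0, g₁, hg₁⟩ := exists_int_mul_eq_toQ g₀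
  obtain ⟨N₃, hN₃0, D₁, hD₁⟩ := exists_int_mul_eq_toQ M.det
  -- the multiplicity of `F` in the determinant
  obtain ⟨t, ht, h, hdeth, hFh⟩ : ∃ t ≤ s, ∃ h, M.det = toQ F ^ t * h ∧ ¬ toQ F ∣ h := by
    have hfin : FiniteMultiplicity (toQ F) M.det := ⟨s, hdet⟩
    obtain ⟨h, h1, h2⟩ := hfin.exists_eq_pow_mul_and_not_dvd
    refine ⟨_, ?_, h, h1, h2⟩
    by_contra hcon
    exact hdet ((pow_dvd_pow _ (by omega)).trans ⟨h, h1⟩)
  obtain ⟨N₅, hN₅0, h₁, hh₁⟩ := exists_int_mul_eq_toQ h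
  set c : ℤ := N₁ * N₂ * N₄ with hc
  have hc0 : c ≠ 0 := mul_ne_zero (mul_ne_zero hN₁0 hN₂0) hN₄0
  have hCQ : ∀ m : ℤ, toQ (C m : MvPolynomial (Fin n) ℤ) = C (m : ℚ) := fun m =>
    (MvPolynomial.map_C _ _).trans rfl
  have hCunit : ∀ m : ℤ, m ≠ 0 → IsUnit (C (m : ℚ) : MvPolynomial (Fin n) ℚ) := fun m hm =>
    IsUnit.map C (isUnit_iff_ne_zero.mpr (by exact_mod_cast hm))
  have hDF : C (N₅ : ℤ) * D₁ = C N₃ * (F ^ t * h₁) := by
    apply toQ_injective
    rw [RingHom.map_mul, RingHom.map_mul, RingHom.map_mul, RingHom.map_pow, hCQ, hCQ, hD₁, hh₁,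
      hdeth]
    ring
  refine ⟨C (c * N₃) * (g₁ * h₁), ?_, ?_⟩
  · intro hdvd
    rw [RingHom.map_mul toQ (C (c * N₃)), RingHom.map_mul toQ g₁, hCQ, hg₁, hh₁] at hdvd
    have hu : ∀ m : ℤ, m ≠ 0 → ¬ toQ F ∣ C (m : ℚ) := fun m hm hd =>
      hFprime.not_isUnit (isUnit_of_dvd_unit hd (hCunit m hm))
    rcases hFprime.dvd_or_dvd hdvd with h1 | h1
    · exact hu _ (mul_ne_zero hc0 hN₃0) h1
    rcases hFprime.dvd_or_dvd h1 with h1 | h1
    · rcases hFprime.dvd_or_dvd h1 with h1 | h1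
      · exact hu _ hN₂0 h1
      · exact hg₀ h1
    · rcases hFprime.dvd_or_dvd h1 with h1 | h1
      · exact hu _ hN₅0 h1
      · exact hFh h1
  · intro K _ _ φ x hφs hK hφ p hp hpF hpF2 hpg
    have hpZ : _root_.Prime (p : ℤ) := Nat.prime_iff_prime_int.mp hp
    rw [map_mul (eval x) (C (c * N₃)), map_mul (eval x) g₁, eval_C] at hpg
    have hpc : ¬ (p : ℤ) ∣ c := fun hd => hpg ((hd.mul_right _).mul_right _)
    have hpN₃ : ¬ (p : ℤ) ∣ N₃ := fun hd => hpg ((hd.mul_left _).mul_right _)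
    have hpg₁ : ¬ (p : ℤ) ∣ eval x g₁ := fun hd => hpg ((hd.mul_right _).mul_left _)
    have hph₁ : ¬ (p : ℤ) ∣ eval x h₁ := fun hd => hpg ((hd.mul_left _).mul_left _)
    have hpN₁ : ¬ (p : ℤ) ∣ N₁ := fun hd => hpc ((hd.mul_right _).mul_right _)
    have hpN₂ : ¬ (p : ℤ) ∣ N₂ := fun hd => hpc ((hd.mul_left _).mul_right _)
    have hpN₄ : ¬ (p : ℤ) ∣ N₄ := fun hd => hpc (hd.mul_left _)
    have hg₁x : eval x g₁ ≠ 0 := fun h0 => hpg₁ (h0 ▸ dvd_zero _)
    -- values on the rational polynomials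
    set xq : Fin n → ℚ := fun i => (x i : ℚ) with hxq
    have hφQ : ∀ G : MvPolynomial (Fin n) ℚ,
        φ (algebraMap (MvPolynomial (Fin n) ℚ) A G) = ((eval xq G : ℚ) : K) := by
      intro G
      have h1 : φ.comp (algebraMap (MvPolynomial (Fin n) ℚ) A) =
          (Rat.castHom K).comp (eval xq) := by
        refine MvPolynomial.ringHom_ext' ?_ ?_
        · exact RingHom.ext_rat _ _
        · intro i
          simp only [RingHom.comp_apply, eval_X, hφ i, hxq]
          simp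
      exact congrArg (fun f : MvPolynomial (Fin n) ℚ →+* K => f G) h1
    have hφR : ∀ G : MvPolynomial (Fin n) ℤ,
        φ (algebraMap (MvPolynomial (Fin n) ℤ) A G) = ((eval x G : ℤ) : K) := by
      intro G
      rw [hA', hφQ, hxq, eval_toQ]
      simp
    have hint : ∀ a : A, IsIntegral (MvPolynomial (Fin n) ℤ) a → φ a ∈ integralClosure ℤ K := by
      intro a h1
      refine IsIntegral.map_of_comp_eq (eval x) φ ?_ h1
      refine RingHom.ext fun G => ?_
      rw [RingHom.comp_apply, RingHom.comp_apply, hφR]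
      simp
    set ζ : 𝓞 K := ⟨φ ((N₁ : A) * z), hint _ hN₁⟩ with hζ
    have hζv : (ζ : K) = (N₁ : K) * φ z := by
      have : (ζ : K) = φ ((N₁ : A) * z) := rfl
      rw [this, map_mul, map_intCast]
    set γ : ℚ := eval xq g₀ with hγ
    have hγ1 : (N₂ : ℚ) * γ = ((eval x g₁ : ℤ) : ℚ) := by
      rw [← eval_toQ, hg₁, map_mul, eval_C]
    have hγ0 : γ ≠ 0 := by
      intro h0
      rw [h0, mul_zero] at hγ1
      exact hg₁x (by exact_mod_cast hγ1.symm)
    refine ⟨ζ, ?_, ?_⟩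
    · intro v hmem hnm
      by_contra hζv'
      apply hnm
      intro l
      have one : ∀ c : ℤ, ¬ (p : ℤ) ∣ c → v.valuation K (c : K) = 1 := fun c hc =>
        val_int_one v hp hmem hc
      -- the value of `φ z`
      have e1 : v.valuation K (φ z) = 1 := by
        have h1 : v.valuation K (ζ : K) = 1 := by
          by_contra hne
          have h2 : v.intValuation ζ < 1 := by
            refine lt_of_le_of_ne (v.intValuation_le_one _) fun h3 => hne ?_
            have h4 : v.valuation K (algebraMap (𝓞 K) K ζ) = v.intValuation ζ :=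
              v.valuation_of_algebraMap ζ
            exact h4.trans h3
          rw [HeightOneSpectrum.intValuation_lt_one_iff_mem] at h2
          exact hζv' h2
        rw [hζv, map_mul, one N₁ hpN₁, one_mul] at h1
        exact h1
      -- the value of `γ`
      have e2 : v.valuation K (γ : K) = 1 := by
        have h2 : ((eval x g₁ : ℤ) : K) = (N₂ : K) * (γ : K) := by
          have := congrArg (fun q : ℚ => (q : K)) hγ1
          push_cast at this
          exact this.symm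
        have h3 := one _ hpg₁
        rw [h2, map_mul, one N₂ hpN₂, one_mul] at h3
        exact h3
      -- the value of `φ b`
      have e3 : v.valuation K (φ (b l)) ≤ 1 := by
        have h1 : v.valuation K (φ ((N₄ : A) * b l)) ≤ 1 :=
          v.valuation_le_one (⟨φ ((N₄ : A) * b l), hint _ (hN₄ l)⟩ : 𝓞 K)
        rwa [map_mul, map_intCast, map_mul, one N₄ hpN₄, one_mul] at h1
      have e4 := val_int_lt (K := K) v hmem hpF
      have h1 := congrArg φ (hzE l)
      rw [map_mul, map_mul, map_pow, map_mul, hφQ, hφQ, hxq, eval_toQ, ← hxq, ← hγ] at h1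
      have h2 := congrArg (v.valuation K) h1
      rw [map_mul, map_mul, map_pow, map_mul, e1, e2, one_mul, mul_one] at h2
      have h3 : v.valuation K (((eval x F : ℤ) : ℚ) : K) < 1 := by
        rw [Rat.cast_intCast]
        exact e4
      by_contra hge
      push Not at hge
      have h4 : (1 : _) ≤ v.valuation K (φ (y l)) ^ E := one_le_pow₀ hge
      rw [h2] at h4
      exact absurd h4 (not_le.mpr (mul_lt_one_of_nonneg_of_lt_one_left zero_le h3 e3))
    · intro hdvd
      -- the norm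
      have hnorm : Algebra.norm ℚ ((γ : K) * φ z) = eval xq M.det := by
        have h1 := norm_eq_det hK (fun i => φ (ω i)) γ hγ0 (by
          intro y
          obtain ⟨a, rfl⟩ := hφs y
          obtain ⟨r, hr⟩ := hspan a
          refine ⟨fun i => eval xq (r i), ?_⟩
          have h2 := congrArg φ hr
          rw [map_mul, hφQ, map_sum] at h2
          rw [h2]
          refine Finset.sum_congr rfl fun i _ => ?_
          rw [map_mul, hφQ]) ((γ : K) * φ z) ((eval xq).mapMatrix M) (by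
          intro i
          have h2 := congrArg φ (hM i)
          rw [map_mul, map_mul, hφQ, map_sum] at h2
          rw [h2]
          refine Finset.sum_congr rfl fun j _ => ?_
          rw [map_mul, hφQ]
          rfl)
        rw [h1, RingHom.map_det]
      have hnz : γ ^ N * ((Algebra.norm ℤ ζ : ℤ) : ℚ) = (N₁ : ℚ) ^ N * eval xq M.det := by
        rw [Algebra.coe_norm_int, hζv, ← hnorm]
        rw [map_mul, map_mul]
        have h1 : Algebra.norm ℚ (N₁ : K) = (N₁ : ℚ) ^ N := by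
          have : (N₁ : K) = algebraMap ℚ K (N₁ : ℚ) := by simp
          rw [this, Algebra.norm_algebraMap, hK]
        have h2 : Algebra.norm ℚ (γ : K) = γ ^ N := by
          have : (γ : K) = algebraMap ℚ K γ := by simp
          rw [this, Algebra.norm_algebraMap, hK]
        rw [h1, h2]
        ring
      have hD₁x : (N₃ : ℚ) * eval xq M.det = ((eval x D₁ : ℤ) : ℚ) := by
        rw [← eval_toQ, hD₁, map_mul, eval_C]
      have hint2 : N₃ * (eval x g₁) ^ N * Algebra.norm ℤ ζ = (N₂ * N₁) ^ N * eval x D₁ := by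
        have h1 : ((N₃ * (eval x g₁) ^ N * Algebra.norm ℤ ζ : ℤ) : ℚ) =
            (((N₂ * N₁) ^ N * eval x D₁ : ℤ) : ℚ) := by
          push_cast
          rw [← hγ1, ← hD₁x]
          calc (N₃ : ℚ) * (N₂ * γ) ^ N * (Algebra.norm ℤ ζ : ℤ) =
              N₃ * N₂ ^ N * (γ ^ N * ((Algebra.norm ℤ ζ : ℤ) : ℚ)) := by rw [mul_pow]; ring
            _ = _ := by rw [hnz, mul_pow]; ring
        exact_mod_cast h1
      have hDd : (p : ℤ) ^ (s + 1) ∣ eval x D₁ := by
        have h1 : (p : ℤ) ^ (s + 1) ∣ (N₂ * N₁) ^ N * eval x D₁ := by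
          rw [← hint2]; exact hdvd.mul_left _
        refine IsCoprime.dvd_of_dvd_mul_left ?_ h1
        refine IsCoprime.pow ((hpZ.coprime_iff_not_dvd).mpr fun hd => ?_)
        exact (hpZ.dvd_or_dvd hd).elim hpN₂ hpN₁
      have hDFx : N₅ * eval x D₁ = N₃ * ((eval x F) ^ t * eval x h₁) := by
        have := congrArg (eval x) hDF
        simpa using this
      have h1 : (p : ℤ) ^ (s + 1) ∣ (eval x F) ^ t := by
        have h2 : (p : ℤ) ^ (s + 1) ∣ (N₃ * eval x h₁) * (eval x F) ^ t := by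
          have h3 : (N₃ * eval x h₁) * (eval x F) ^ t = N₅ * eval x D₁ := by rw [hDFx]; ring
          rw [h3]; exact hDd.mul_left _
        refine IsCoprime.dvd_of_dvd_mul_left ?_ h2
        refine IsCoprime.pow_left ((hpZ.coprime_iff_not_dvd).mpr fun hd => ?_)
        exact (hpZ.dvd_or_dvd hd).elim hpN₃ hph₁
      obtain ⟨d, hd⟩ := hpF
      have hpd : ¬ (p : ℤ) ∣ d := by
        rintro ⟨e, he⟩
        exact hpF2 ⟨e, by rw [hd, he]; ring⟩
      rw [hd, mul_pow] at h1
      have h4 : (p : ℤ) ^ (s + 1) ∣ (p : ℤ) ^ t := by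
        refine IsCoprime.dvd_of_dvd_mul_right ?_ h1
        exact IsCoprime.pow ((hpZ.coprime_iff_not_dvd).mpr hpd)
      have h5 := (pow_dvd_pow_iff hpZ.ne_zero hpZ.not_isUnit).mp h4
      omega

end Pool.Agent.R366.TC
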