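import Pool.Agent.TH910.Voj.NormMain
import Pool.Agent.TH910.Voj.Trunc
import Pool.Agent.R366.TC.Norm
import Pool.Agent.R366.TC.Disc
import Pool.Agent.R366.TC.FullGcd

set_option autoImplicit false

/-!
The truncated counting function plus the discriminant at the points of degree `N` over almost all
rational points, for an arbitrary normal cover of degree `N`.
-/

namespace Pool.Agent.R366.TC

open MvPolynomial NumberField IsDedekindDomain Pool.Agent.H813R3.Voj Pool.Agent.TH910.Voj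

open Classical in
/-- the truncated counting function -/
noncomputable def trunc {n q : ℕ} {A : Type} [CommRing A] (S : Finset ℕ)
    (F : Fin q → MvPolynomial (Fin n) ℤ) (u : Fin q → ℕ) (y : ∀ j, Fin (u j) → A) (x : Fin n → ℤ)
    (K : Type) [Field K] [NumberField K] (φ : A →+* K) : ℝ :=
  (∑ᶠ v : HeightOneSpectrum (𝓞 K),
    if (∀ p ∈ S, (p : 𝓞 K) ∉ v.asIdeal) ∧ ∃ j, v.valuation K ((eval x (F j) : ℤ) : K) < 1 ∧
      ∀ i, v.valuation K (φ (y j i)) < 1
    then Real.log (Ideal.absNorm v.asIdeal) else 0) / Module.finrank ℚ K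

lemma mem_of_val_lt {K : Type} [Field K] [NumberField K] (v : HeightOneSpectrum (𝓞 K)) {c : ℤ}
    (h : v.valuation K (c : K) < 1) : (c : 𝓞 K) ∈ v.asIdeal := by
  have h1 : (c : K) = algebraMap (𝓞 K) K (c : 𝓞 K) := by simp
  rwa [h1, HeightOneSpectrum.valuation_of_algebraMap,
    HeightOneSpectrum.intValuation_lt_one_iff_mem] at h

lemma finite_val {K : Type} [Field K] [NumberField K] {c : ℤ} (hc : c ≠ 0) :
    {v : HeightOneSpectrum (𝓞 K) | v.valuation K (c : K) < 1}.Finite := by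
  have hne : Ideal.span {(c : 𝓞 K)} ≠ 0 := by
    rw [Ne, Ideal.zero_eq_bot, Ideal.span_singleton_eq_bot]
    exact_mod_cast hc
  refine (Ideal.finite_factors hne).subset ?_
  intro v hv
  show v.asIdeal ∣ Ideal.span {(c : 𝓞 K)}
  rw [Ideal.dvd_span_singleton]
  exact mem_of_val_lt v hv

lemma sum_le_trunc {n q : ℕ} {A : Type} [CommRing A] (S : Finset ℕ)
    (F : Fin q → MvPolynomial (Fin n) ℤ) (u : Fin q → ℕ) (y : ∀ j, Fin (u j) → A) (x : Fin n → ℤ)
    (K : Type) [Field K] [NumberField K] (φ : A →+* K) (ha : ∀ j, eval x (F j) ≠ 0)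
    (V : Finset (HeightOneSpectrum (𝓞 K)))
    (hV : ∀ v ∈ V, (∀ p ∈ S, (p : 𝓞 K) ∉ v.asIdeal) ∧
      ∃ j, v.valuation K ((eval x (F j) : ℤ) : K) < 1 ∧ ∀ i, v.valuation K (φ (y j i)) < 1) :
    (∑ v ∈ V, Real.log (Ideal.absNorm v.asIdeal)) / Module.finrank ℚ K ≤ trunc S F u y x K φ := by
  classical
  have hm0 : (0 : ℝ) < Module.finrank ℚ K := by exact_mod_cast Module.finrank_pos
  unfold trunc
  refine div_le_div_of_nonneg_right ?_ hm0.le
  have hfin : (⋃ j, {v : HeightOneSpectrum (𝓞 K) |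
      v.valuation K ((eval x (F j) : ℤ) : K) < 1}).Finite :=
    Set.finite_iUnion fun j => finite_val (ha j)
  have hlog : ∀ v : HeightOneSpectrum (𝓞 K), 0 ≤ Real.log (Ideal.absNorm v.asIdeal : ℝ) := by
    intro v
    apply Real.log_nonneg
    have := NumberField.HeightOneSpectrum.one_lt_absNorm v
    exact_mod_cast this.le
  rw [finsum_eq_sum_of_support_subset _ (s := hfin.toFinset ∪ V) (by
    intro v hv
    rw [Function.mem_support] at hv
    have h1 : (∀ p ∈ S, (p : 𝓞 K) ∉ v.asIdeal) ∧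
        ∃ j, v.valuation K ((eval x (F j) : ℤ) : K) < 1 ∧
          ∀ i, v.valuation K (φ (y j i)) < 1 := by
      by_contra hne
      exact hv (if_neg hne)
    obtain ⟨-, j, h2, -⟩ := h1
    refine Finset.mem_coe.2 (Finset.mem_union_left _ ?_)
    rw [Set.Finite.mem_toFinset, Set.mem_iUnion]
    exact ⟨j, h2⟩)]
  calc ∑ v ∈ V, Real.log (Ideal.absNorm v.asIdeal : ℝ)
      = ∑ v ∈ V, (if (∀ p ∈ S, (p : 𝓞 K) ∉ v.asIdeal) ∧
          ∃ j, v.valuation K ((eval x (F j) : ℤ) : K) < 1 ∧ ∀ i, v.valuation K (φ (y j i)) < 1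
        then Real.log (Ideal.absNorm v.asIdeal : ℝ) else 0) :=
        Finset.sum_congr rfl fun v hv => by rw [if_pos (hV v hv)]
    _ ≤ _ := by
        refine Finset.sum_le_sum_of_subset_of_nonneg Finset.subset_union_right fun v _ _ => ?_
        split_ifs
        · exact hlog v
        · exact le_rfl

lemma sum_sets_le_marked {K : Type} [Field K] [NumberField K] {q : ℕ} (a b : Fin q → ℤ)
    (Q : Fin q → Finset ℕ) (hQ : ∀ j, ∀ p ∈ Q j, p.Prime ∧ (p : ℤ) ∣ a j ∧ ¬ (p : ℤ) ∣ b j)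
    (s : Fin q → ℕ) (m : HeightOneSpectrum (𝓞 K) → Prop)
    (hab : ∀ i j, i ≠ j → a i ∣ b j)
    (h : ∀ j, ∀ p ∈ Q j, ∃ ζ : 𝓞 K,
      (∀ v : HeightOneSpectrum (𝓞 K), (p : 𝓞 K) ∈ v.asIdeal → ¬ m v → ζ ∈ v.asIdeal) ∧
        ¬ (p : ℤ) ^ (s j + 1) ∣ Algebra.norm ℤ ζ) :
    ∃ V : Finset (HeightOneSpectrum (𝓞 K)),
      (∀ v ∈ V, m v ∧ ∃ j, ∃ p ∈ Q j, (p : 𝓞 K) ∈ v.asIdeal) ∧
      ∑ j, (1 - (s j : ℝ) / Module.finrank ℚ K) * ∑ p ∈ Q j, Real.log p ≤
        Real.log |(NumberField.discr K : ℝ)| / Module.finrank ℚ K +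
          (∑ v ∈ V, Real.log (Ideal.absNorm v.asIdeal)) / Module.finrank ℚ K := by
  classical
  have hdisj : ∀ i j : Fin q, ∀ p, p ∈ Q i → p ∈ Q j → i = j := by
    intro i j p hi hj
    by_contra hne
    exact (hQ j p hj).2.2 ((hQ i p hi).2.1.trans (hab i j hne))
  set f : ℕ → ℕ := fun p => if h : ∃ j, p ∈ Q j then s h.choose else 1 with hf
  have hfj : ∀ j, ∀ p ∈ Q j, f p = s j := by
    intro j p hp
    have hex : ∃ j, p ∈ Q j := ⟨j, hp⟩
    rw [hf]
    simp only [hex, dif_pos]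
    rw [hdisj _ _ p hex.choose_spec hp]
  set S := Finset.univ.biUnion fun j => Q j with hS
  have hSm : ∀ p ∈ S, ∃ j, p ∈ Q j := by
    intro p hp
    rw [hS, Finset.mem_biUnion] at hp
    obtain ⟨j, -, hj⟩ := hp
    exact ⟨j, hj⟩
  obtain ⟨V, hV, h1⟩ := sum_log_le_marked (K := K) S (by
    intro p hp
    obtain ⟨j, hj⟩ := hSm p hp
    exact (hQ j p hj).1) f m (by
    intro p hp
    obtain ⟨j, hj⟩ := hSm p hp
    rw [hfj j p hj]
    exact h j p hj)
  refine ⟨V, ?_, ?_⟩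
  · intro v hv
    obtain ⟨h2, p, hp, hpv⟩ := hV v hv
    obtain ⟨j, hj⟩ := hSm p hp
    exact ⟨h2, j, p, hj, hpv⟩
  · refine le_trans (le_of_eq ?_) h1
    rw [hS, Finset.sum_biUnion]
    · refine Finset.sum_congr rfl fun j _ => ?_
      rw [Finset.mul_sum]
      exact Finset.sum_congr rfl fun p hp => by rw [hfj j p hp]
    · intro i _ j _ hij
      rw [Function.onFun, Finset.disjoint_left]
      intro p hpi hpj
      exact hij (hdisj i j p hpi hpj)

lemma log_rd_sub_le {a : ℤ} (ha : a ≠ 0) (b : ℤ) :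
    Real.log (rd a.natAbs) - Real.log (rd (Int.gcd a b)) ≤
      ∑ p ∈ a.natAbs.primeFactors.filter (fun p : ℕ => ¬ (p : ℤ) ∣ b), Real.log p := by
  classical
  have hnn : ∀ p : ℕ, 0 ≤ Real.log p := Real.log_natCast_nonneg
  have hlog : ∀ m : ℕ, Real.log (rd m) = ∑ p ∈ m.primeFactors, Real.log p := by
    intro m
    unfold rd
    push_cast
    rw [Real.log_prod fun p hp => by exact_mod_cast (Nat.prime_of_mem_primeFactors hp).ne_zero]
  rw [hlog, hlog]
  have h2 : a.natAbs.primeFactors ⊆ a.natAbs.primeFactors.filter (fun p : ℕ => ¬ (p : ℤ) ∣ b) ∪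
      (Int.gcd a b).primeFactors := by
    intro p hp
    by_cases h12 : (p : ℤ) ∣ b
    · refine Finset.mem_union_right _ ?_
      rw [Nat.mem_primeFactors] at hp ⊢
      refine ⟨hp.1, ?_, fun h => ha (Int.gcd_eq_zero_iff.mp h).1⟩
      exact Nat.dvd_gcd hp.2.1 (Int.natCast_dvd.mp h12)
    · exact Finset.mem_union_left _ (Finset.mem_filter.mpr ⟨hp, h12⟩)
  have h3 := Finset.sum_le_sum_of_subset_of_nonneg h2 (f := fun p : ℕ => Real.log p)
    fun p _ _ => hnn p
  have h4 : ∑ p ∈ a.natAbs.primeFactors.filter (fun p : ℕ => ¬ (p : ℤ) ∣ b) ∪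
      (Int.gcd a b).primeFactors, Real.log (p : ℝ) ≤
      ∑ p ∈ a.natAbs.primeFactors.filter (fun p : ℕ => ¬ (p : ℤ) ∣ b), Real.log (p : ℝ) +
        ∑ p ∈ (Int.gcd a b).primeFactors, Real.log (p : ℝ) := by
    rw [← Finset.sum_union_inter]
    have : 0 ≤ ∑ p ∈ a.natAbs.primeFactors.filter (fun p : ℕ => ¬ (p : ℤ) ∣ b) ∩
        (Int.gcd a b).primeFactors, Real.log (p : ℝ) :=
      Finset.sum_nonneg fun p _ => hnn p
    linarith
  linarith

/-- the height of the point `x` relative to the ideal generated by the forms `F` and `G` of degrees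
`k` and `e` -/
noncomputable def idealHeight {n : ℕ} (F G : MvPolynomial (Fin n) ℤ) (k e : ℕ) (x : Fin n → ℤ) :
    ℝ :=
  Real.log (Int.gcd (eval x F) (eval x G)) +
    min (k * Real.log (Finset.univ.sup fun i => (x i).natAbs : ℕ) - Real.log |(eval x F : ℝ)|)
      (e * Real.log (Finset.univ.sup fun i => (x i).natAbs : ℕ) - Real.log |(eval x G : ℝ)|)

lemma idealHeight_le {n : ℕ} (F G : MvPolynomial (Fin (n + 1)) ℤ) (k e : ℕ) (η : ℝ) (B : ℕ)
    (hB : 1 ≤ B) (x : Fin (n + 1) → ℤ) (hx : x ∈ box (n + 1) B) (h0 : eval x F ≠ 0)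
    (h1 : ¬ ((eval x F).natAbs : ℝ) ≤ (B : ℝ) ^ ((k : ℝ) - η))
    (h2 : ¬ (B : ℝ) ^ η < Int.gcd (eval x F) (eval x G)) :
    idealHeight F G k e x ≤ 2 * η * Real.log B := by
  have hB1 : (1 : ℝ) ≤ B := by exact_mod_cast hB
  have hBpos : (0 : ℝ) < B := by linarith
  have hlogB : 0 ≤ Real.log B := Real.log_nonneg hB1
  unfold idealHeight
  have e1 : (k : ℝ) * Real.log (Finset.univ.sup fun i => (x i).natAbs : ℕ) ≤ k * Real.log B := by
    refine mul_le_mul_of_nonneg_left ?_ (Nat.cast_nonneg k)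
    rcases Nat.eq_zero_or_pos (Finset.univ.sup fun i => (x i).natAbs) with h | h
    · rw [h, Nat.cast_zero, Real.log_zero]; exact hlogB
    · refine Real.log_le_log (by exact_mod_cast h) ?_
      have : (Finset.univ.sup fun i => (x i).natAbs) ≤ B := by
        refine Finset.sup_le fun i _ => ?_
        have h3 := mem_box.mp hx i
        rw [Int.abs_eq_natAbs] at h3
        exact_mod_cast h3
      exact_mod_cast this
  have e2 : ((k : ℝ) - η) * Real.log B ≤ Real.log |(eval x F : ℝ)| := by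
    rw [← Real.log_rpow hBpos]
    refine Real.log_le_log (by positivity) ?_
    have := (not_le.mp h1).le
    rwa [Nat.cast_natAbs, Int.cast_abs] at this
  have hg : 0 < Int.gcd (eval x F) (eval x G) := Int.gcd_pos_of_ne_zero_left _ h0
  have e3 : Real.log (Int.gcd (eval x F) (eval x G)) ≤ η * Real.log B := by
    rw [← Real.log_rpow hBpos]
    exact Real.log_le_log (by exact_mod_cast hg) (not_lt.mp h2)
  have e4 := min_le_left
    (k * Real.log (Finset.univ.sup fun i => (x i).natAbs : ℕ) - Real.log |(eval x F : ℝ)|)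
    (e * Real.log (Finset.univ.sup fun i => (x i).natAbs : ℕ) - Real.log |(eval x G : ℝ)|)
  linarith

theorem main_marked {n : ℕ} {A : Type} [CommRing A] [IsDomain A] [IsIntegrallyClosed A]
    [Algebra (MvPolynomial (Fin (n + 1)) ℚ) A] [Module.Finite (MvPolynomial (Fin (n + 1)) ℚ) A]
    [FaithfulSMul (MvPolynomial (Fin (n + 1)) ℚ) A] (N : ℕ)
    (hN : Module.finrank (MvPolynomial (Fin (n + 1)) ℚ) A = N) {q : ℕ}
    (F : Fin q → MvPolynomial (Fin (n + 1)) ℤ) (k s : Fin q → ℕ)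
    (hhom : ∀ j, (F j).IsHomogeneous (k j)) (hirr : ∀ j, Irreducible (toQ (F j)))
    (hdist : ∀ i j, i ≠ j → ¬ Associated (toQ (F i)) (toQ (F j)))
    (u : Fin q → ℕ) (y : ∀ j, Fin (u j) → A) (𝔈 : Fin q → Ideal A) (m : Fin q → ℕ)
    (hm : ∀ j, (m j = k j ∧ (k j ≤ 2 ∨ FewCoincidences (F j) (k j))) ∨
      (𝔈 j = ⊤ ∧ (m j ≤ 1 ∨ (m j ≤ k j ∧ k j ≤ 2) ∨ FewCoincidences (F j) (m j))))
    (hFE : ∀ j, algebraMap (MvPolynomial (Fin (n + 1)) ℚ) A (toQ (F j)) ∈ 𝔈 j)
    (hy : ∀ j i, ∀ e ∈ 𝔈 j, y j i * e ∈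
      (Ideal.span {algebraMap (MvPolynomial (Fin (n + 1)) ℚ) A (toQ (F j))}).radical)
    (hsN : ∀ j, s j ≤ N) (hs : ∀ j, PartLE (𝔈 j) (toQ (F j)) (s j))
    (G : MvPolynomial (Fin (n + 1)) ℤ) (d : ℕ) (hG : G.IsHomogeneous d) (hG0 : G ≠ 0)
    (S T : Finset ℕ) (hS : ∀ p ∈ S, p.Prime) (hT : ∀ p ∈ T, p.Prime)
    (t : ℕ) (F' G' : Fin t → MvPolynomial (Fin (n + 1)) ℤ) (k' e' : Fin t → ℕ)
    (hhom' : ∀ l, (F' l).IsHomogeneous (k' l)) (hirr' : ∀ l, Irreducible (toQ (F' l)))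
    (hcop' : ∀ l, ¬ toQ (F' l) ∣ toQ (G' l)) (Λ : ℝ) (hΛ : 0 ≤ Λ)
    (κ : ℝ) (hκ : κ < ∑ j, (m j : ℝ) * (1 - (s j : ℝ) / N)) :
    Sparse (n + 1) (fun B x => ∃ (K : Type) (_ : Field K) (_ : NumberField K) (φ : A →+* K),
      Function.Surjective φ ∧ Module.finrank ℚ K = N ∧
      (∀ i, φ (algebraMap (MvPolynomial (Fin (n + 1)) ℚ) A (X i)) = x i) ∧
      trunc T F u y x K φ + Real.log |(NumberField.discr K : ℝ)| / N <
        κ * Real.log B + proximity G d S x + Λ * ∑ l, idealHeight (F' l) (G' l) (k' l) (e' l) x) := by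
  classical
  have hdata : ∀ j, ∃ g : MvPolynomial (Fin (n + 1)) ℤ, ¬ toQ (F j) ∣ toQ g ∧
      ∀ (K : Type) [Field K] [NumberField K] (φ : A →+* K) (x : Fin (n + 1) → ℤ),
        Function.Surjective φ → Module.finrank ℚ K = N →
        (∀ i, φ (algebraMap (MvPolynomial (Fin (n + 1)) ℚ) A (X i)) = x i) →
        ∀ p : ℕ, p.Prime → (p : ℤ) ∣ eval x (F j) →
          (¬ 𝔈 j = ⊤ → ¬ (p : ℤ) ^ 2 ∣ eval x (F j)) → ¬ (p : ℤ) ∣ eval x g →
          ∃ ζ : 𝓞 K, (∀ v : HeightOneSpectrum (𝓞 K), (p : 𝓞 K) ∈ v.asIdeal →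
              ¬ (∀ i, v.valuation K (φ (y j i)) < 1) → ζ ∈ v.asIdeal) ∧
            ¬ (p : ℤ) ^ (s j + 1) ∣ Algebra.norm ℤ ζ := by
    intro j
    by_cases hfull : 𝔈 j = ⊤
    · obtain ⟨g, hg, h⟩ := exists_norm_full (A := A) (F j) (hirr j) (s j) (y j) (by
        intro i
        have := hy j i 1 (by rw [hfull]; trivial)
        rwa [mul_one] at this)
      refine ⟨g, hg, ?_⟩
      intro K _ _ φ x _ _ hφ p hp hpF _ hpg
      exact h K φ x hφ p hp hpF hpg
    · obtain ⟨g, hg, h⟩ := exists_norm_part (A := A) (F j) (hirr j) (s j) N hN (𝔈 j) (hFE j) (y j)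
        (hy j) (hs j)
      refine ⟨g, hg, ?_⟩
      intro K _ _ φ x hφs hK hφ p hp hpF hpF2 hpg
      exact h K φ x hφs hK hφ p hp hpF (hpF2 hfull) hpg
  choose g hg hspec using hdata
  set τ : ℤ := ∏ p ∈ T, (p : ℤ) with hτ
  have hτ0 : τ ≠ 0 := Finset.prod_ne_zero_iff.mpr fun p hp => by
    exact_mod_cast (hT p hp).ne_zero
  set H : Fin q → MvPolynomial (Fin (n + 1)) ℤ := fun j =>
    C τ * (g j * ∏ i ∈ Finset.univ.erase j, F i) with hH
  have hHdvd : ∀ j, ¬ toQ (F j) ∣ toQ (H j) := by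
    intro j hdvd
    rw [hH] at hdvd
    simp only at hdvd
    rw [RingHom.map_mul toQ (C τ)] at hdvd
    rcases (hirr j).prime.dvd_or_dvd hdvd with h1 | h1
    · have h2 : toQ (C τ : MvPolynomial (Fin (n + 1)) ℤ) = C (τ : ℚ) :=
        (MvPolynomial.map_C _ _).trans rfl
      rw [h2] at h1
      have h3 : IsUnit (C (τ : ℚ) : MvPolynomial (Fin (n + 1)) ℚ) :=
        IsUnit.map C (isUnit_iff_ne_zero.mpr (by exact_mod_cast hτ0))
      exact (hirr j).not_isUnit (isUnit_of_dvd_unit h1 h3)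
    rw [RingHom.map_mul, map_prod] at h1
    rcases (hirr j).prime.dvd_or_dvd h1 with h1 | h1
    · exact hg j h1
    · obtain ⟨i, hi, h2⟩ := ((hirr j).prime.dvd_finsetProd_iff _).mp h1
      exact hdist j i (Finset.ne_of_mem_erase hi).symm ((hirr j).associated_of_dvd (hirr i) h2)
  have hF0 : ∀ j, F j ≠ 0 := by
    intro j h0
    exact (hirr j).ne_zero (by rw [h0, map_zero])
  have hfew' : ∀ j, FewCoincidences (F j) (m j) := by
    intro j
    rcases hm j with ⟨h1, h⟩ | ⟨-, h⟩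
    · rw [h1]
      exact h.elim (fun h => few_of_le_two (F j) h (hhom j) (hirr j)) id
    · rcases h with h | h | h
      · exact (few_any (F j) (hirr j)).mono h
      · exact (few_of_le_two (F j) h.2 (hhom j) (hirr j)).mono h.1
      · exact h
  set Δ : ℝ := (∑ j, (m j : ℝ) * (1 - (s j : ℝ) / N)) - κ with hΔ
  have hΔ0 : 0 < Δ := by rw [hΔ]; linarith
  set θ : ℝ := Δ / (12 * (q + 1)) with hθ
  have hθ0 : 0 < θ := by positivity
  set η : ℝ := min 1 (Δ / (8 * (t + 1) * (Λ + 1))) with hη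
  have hη0 : 0 < η := lt_min one_pos (by positivity)
  have hη1 : η ≤ 1 := min_le_left _ _
  have hηΛ : Λ * (t * (2 * η)) ≤ Δ / 4 := by
    have h1 : η ≤ Δ / (8 * (t + 1) * (Λ + 1)) := min_le_right _ _
    have ht0 : (0 : ℝ) ≤ t := Nat.cast_nonneg t
    have h2 : Λ * (t * (2 * η)) ≤ (Λ + 1) * ((t + 1) * (2 * (Δ / (8 * (t + 1) * (Λ + 1))))) := by
      apply mul_le_mul (by linarith) _ (by positivity) (by linarith)
      apply mul_le_mul (by linarith) _ (by positivity) (by linarith)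
      linarith
    refine h2.trans (le_of_eq ?_)
    field_simp
    ring
  set ε : ℝ := min 1 (Δ / (4 * (S.card + 1))) with hε
  have hε0 : 0 < ε := lt_min one_pos (by positivity)
  have hε1 : ε ≤ 1 := min_le_left _ _
  have hεS : (S.card + 1) * ε ≤ Δ / 4 := by
    have h1 : ε ≤ Δ / (4 * (S.card + 1)) := min_le_right _ _
    have h2 : (0 : ℝ) < S.card + 1 := by positivity
    calc (S.card + 1) * ε ≤ (S.card + 1) * (Δ / (4 * (S.card + 1))) :=
          mul_le_mul_of_nonneg_left h1 h2.le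
      _ = Δ / 4 := by field_simp
  have hval := fun j => exists_eval_bound (F j) (hhom j).totalDegree_le
  choose c hc1 hc using hval
  obtain ⟨B₀, hB₀⟩ : ∃ B₀ : ℕ, ∀ B : ℕ, B₀ ≤ B → ∑ j, Real.log (c j) ≤ Δ / 4 * Real.log B := by
    have h1 : Filter.Tendsto (fun B : ℕ => Δ / 4 * Real.log B) Filter.atTop Filter.atTop :=
      (Real.tendsto_log_atTop.comp tendsto_natCast_atTop_atTop).const_mul_atTop (by positivity)
    exact Filter.eventually_atTop.mp (h1.eventually_ge_atTop (∑ j, Real.log (c j)))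
  have hsp : ∀ j, Sparse (n + 1) (fun B x => eval x (F j) = 0 ∨
      ((eval x (F j) ≠ 0 ∧ (rd (eval x (F j)).natAbs : ℝ) ≤ (B : ℝ) ^ ((m j : ℝ) - θ)) ∨
        (eval x (F j) ≠ 0 ∧ (B : ℝ) ^ θ < rd (Int.gcd (eval x (F j)) (eval x (H j)))))) :=
    fun j => (sparse_zeros (F j) (hF0 j)).or
      ((sparse_small_rad' (F j) (k j) (hhom j).totalDegree_le (hfew' j) hθ0).or
        (sparse_gcd (F j) (H j) (hhom j) (hirr j) (hHdvd j) hθ0))
  have hspG : Sparse (n + 1) (fun B x => eval x G = 0 ∨ ((eval x G ≠ 0 ∧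
      ((eval x G).natAbs : ℝ) ≤ (B : ℝ) ^ ((d : ℝ) - ε)) ∨ (∃ l : Fin S.card, eval x G ≠ 0 ∧
        (B : ℝ) ^ ε < (((S.equivFin.symm l : ℕ) ^
          padicValInt (S.equivFin.symm l : ℕ) (eval x G) : ℕ) : ℝ)))) :=
    (sparse_zeros G hG0).or ((sparse_small_value G hG hG0 hε0 hε1).or
      (Sparse.exists_fin fun l => sparse_padic G hG hG0 _
        (hS _ (S.equivFin.symm l).2) hε0 hε1))
  have hF'0 : ∀ l, F' l ≠ 0 := by
    intro l h0
    exact (hirr' l).ne_zero (by rw [h0, map_zero])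
  have hspI : ∀ l, Sparse (n + 1) (fun B x => eval x (F' l) = 0 ∨
      ((eval x (F' l) ≠ 0 ∧ ((eval x (F' l)).natAbs : ℝ) ≤ (B : ℝ) ^ ((k' l : ℝ) - η)) ∨
        (eval x (F' l) ≠ 0 ∧ (B : ℝ) ^ η < Int.gcd (eval x (F' l)) (eval x (G' l))))) :=
    fun l => (sparse_zeros (F' l) (hF'0 l)).or
      ((sparse_small_value (F' l) (hhom' l) (hF'0 l) hη0 hη1).or
        (sparse_full_gcd (F' l) (G' l) (hhom' l) (hirr' l) (hcop' l) hη0))
  refine (((Sparse.exists_fin hsp).or hspG).or (Sparse.exists_fin hspI)).of_eventually B₀ ?_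
  rintro B x hBB hB hx ⟨K, _, _, φ, hφs, hK, hφ, hlt⟩
  by_contra hcon
  rw [not_or, not_or] at hcon
  obtain ⟨⟨hcon, hconG⟩, hconI⟩ := hcon
  push Not at hcon hconI
  have hidl : Λ * ∑ l, idealHeight (F' l) (G' l) (k' l) (e' l) x ≤ Δ / 4 * Real.log B := by
    have h1 : ∑ l, idealHeight (F' l) (G' l) (k' l) (e' l) x ≤ t * (2 * η) * Real.log B := by
      have h2 : ∀ l, idealHeight (F' l) (G' l) (k' l) (e' l) x ≤ 2 * η * Real.log B := by
        intro l
        obtain ⟨h3, h4, h5⟩ := hconI l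
        exact idealHeight_le (F' l) (G' l) (k' l) (e' l) η B hB x hx h3
          (not_le.mpr (h4 h3)) (not_lt.mpr (h5 h3))
      refine (Finset.sum_le_sum fun l _ => h2 l).trans (le_of_eq ?_)
      rw [Finset.sum_const, Finset.card_univ, Fintype.card_fin, nsmul_eq_mul]
      ring
    have hB1 : (1 : ℝ) ≤ B := by exact_mod_cast hB
    have hlogB : 0 ≤ Real.log B := Real.log_nonneg hB1
    calc Λ * ∑ l, idealHeight (F' l) (G' l) (k' l) (e' l) x ≤ Λ * (t * (2 * η) * Real.log B) :=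
          mul_le_mul_of_nonneg_left h1 hΛ
      _ = Λ * (t * (2 * η)) * Real.log B := by ring
      _ ≤ _ := mul_le_mul_of_nonneg_right hηΛ hlogB
  have hB1 : (1 : ℝ) ≤ B := by exact_mod_cast hB
  have hBpos : (0 : ℝ) < B := by linarith
  have hlogB : 0 ≤ Real.log B := Real.log_nonneg hB1
  have hprox : proximity G d S x ≤ (S.card + 1) * ε * Real.log B := by
    rw [not_or, not_or] at hconG
    obtain ⟨h0, h1, h2⟩ := hconG
    refine proximity_le G d S ε B hB x hx h0 (fun h => h1 ⟨h0, h⟩) ?_ hS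
    intro p hp hlt'
    refine h2 ⟨S.equivFin ⟨p, hp⟩, h0, ?_⟩
    rw [Equiv.symm_apply_apply]
    exact hlt'
  have ha : ∀ j, eval x (F j) ≠ 0 := fun j => (hcon j).1
  have hHx : ∀ j, eval x (H j) = τ * (eval x (g j) * ∏ i ∈ Finset.univ.erase j, eval x (F i)) := by
    intro j
    rw [hH]
    simp only [map_mul, map_prod, eval_C]
  have hab : ∀ i j, i ≠ j → eval x (F i) ∣ eval x (H j) := by
    intro i j hij
    rw [hHx]
    refine Dvd.dvd.mul_left (Dvd.dvd.mul_left ?_ _) _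
    exact Finset.dvd_prod_of_mem (fun i => eval x (F i))
      (Finset.mem_erase.mpr ⟨hij, Finset.mem_univ i⟩)
  set Q : Fin q → Finset ℕ := fun j => if 𝔈 j = ⊤ then
      (eval x (F j)).natAbs.primeFactors.filter fun p : ℕ => ¬ (p : ℤ) ∣ eval x (H j)
    else good (eval x (F j)) (eval x (H j)) with hQdef
  have hQ : ∀ j, ∀ p ∈ Q j, p.Prime ∧ (p : ℤ) ∣ eval x (F j) ∧ ¬ (p : ℤ) ∣ eval x (H j) := by
    intro j p hp
    by_cases hfull : 𝔈 j = ⊤
    · rw [hQdef] at hp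
      simp only [if_pos hfull] at hp
      rw [Finset.mem_filter, Nat.mem_primeFactors] at hp
      exact ⟨hp.1.1, Int.natCast_dvd.mpr hp.1.2.1, hp.2⟩
    · rw [hQdef] at hp
      simp only [if_neg hfull] at hp
      rw [mem_good (ha j)] at hp
      exact ⟨hp.1, hp.2.1, hp.2.2.2⟩
  have hQ2 : ∀ j, ∀ p ∈ Q j, ¬ 𝔈 j = ⊤ → ¬ (p : ℤ) ^ 2 ∣ eval x (F j) := by
    intro j p hp hfull
    rw [hQdef] at hp
    simp only [if_neg hfull] at hp
    rw [mem_good (ha j)] at hp
    exact hp.2.2.1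
  obtain ⟨V, hV, hsum⟩ := sum_sets_le_marked (K := K) (fun j => eval x (F j))
    (fun j => eval x (H j)) Q hQ s (fun v => ∃ j, v.valuation K ((eval x (F j) : ℤ) : K) < 1 ∧
      ∀ i, v.valuation K (φ (y j i)) < 1) hab
    (by
      intro j p hp
      have hp' := hQ j p hp
      obtain ⟨ζ, hζ1, hζ2⟩ := hspec j K φ x hφs hK hφ p hp'.1 hp'.2.1 (hQ2 j p hp) (by
        intro hdvd
        apply hp'.2.2
        rw [hHx]
        exact Dvd.dvd.mul_left (hdvd.mul_right _) _)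
      refine ⟨ζ, fun v hpv hm => hζ1 v hpv fun hall => hm ⟨j, ?_, hall⟩, hζ2⟩
      exact val_int_lt v hpv hp'.2.1)
  have hVtr := sum_le_trunc T F u y x K φ ha V (by
    intro v hv
    obtain ⟨h1, j, p, hp, hpv⟩ := hV v hv
    refine ⟨?_, h1⟩
    intro l hl hlv
    have hp' := hQ j p hp
    have h2 := prime_unique v hp'.1 (hT l hl) hpv hlv
    apply hp'.2.2
    rw [hHx, h2]
    exact Dvd.dvd.mul_right (Finset.dvd_prod_of_mem (fun p : ℕ => (p : ℤ)) hl) _)
  rw [hK] at hsum hVtr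
  have hN0 : (0 : ℝ) < N := by
    rw [← hK]
    exact_mod_cast Module.finrank_pos
  have hs' : ∀ j, 0 ≤ 1 - (s j : ℝ) / N ∧ 1 - (s j : ℝ) / N ≤ 1 := by
    intro j
    have h1 : (s j : ℝ) ≤ N := by exact_mod_cast hsN j
    have h2 : (s j : ℝ) / N ≤ 1 := by rw [div_le_one hN0]; exact h1
    have h3 : 0 ≤ (s j : ℝ) / N := by positivity
    constructor <;> linarith
  have hj : ∀ j, ((m j : ℝ) - 3 * θ) * Real.log B - Real.log (c j) ≤
      ∑ p ∈ Q j, Real.log p := by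
    intro j
    obtain ⟨-, h1, h2⟩ := hcon j
    have h3 := h1 (ha j)
    have h4 := h2 (ha j)
    have hrd : (0 : ℝ) < rd (eval x (F j)).natAbs := by exact_mod_cast rd_pos _
    have e1 : ((m j : ℝ) - θ) * Real.log B ≤ Real.log (rd (eval x (F j)).natAbs) := by
      rw [← Real.log_rpow hBpos]
      exact Real.log_le_log (by positivity) h3.le
    have e2 : Real.log (rd (Int.gcd (eval x (F j)) (eval x (H j)))) ≤ θ * Real.log B := by
      rw [← Real.log_rpow hBpos]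
      exact Real.log_le_log (by exact_mod_cast rd_pos _) h4
    have h6 : (1 : ℝ) ≤ c j := by exact_mod_cast hc1 j
    by_cases hfull : 𝔈 j = ⊤
    · have hQj : Q j = (eval x (F j)).natAbs.primeFactors.filter
          fun p : ℕ => ¬ (p : ℤ) ∣ eval x (H j) := by
        rw [hQdef]
        simp only [if_pos hfull]
      rw [hQj]
      have h5 := log_rd_sub_le (ha j) (eval x (H j))
      have h7 : 0 ≤ Real.log (c j) := Real.log_nonneg h6
      nlinarith
    · have hmk : m j = k j := by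
        rcases hm j with h | h
        · exact h.1
        · exact absurd h.1 hfull
      have hQj : Q j = good (eval x (F j)) (eval x (H j)) := by
        rw [hQdef]
        simp only [if_neg hfull]
      rw [hQj]
      refine le_trans ?_ (log_good (ha j))
      have e3 : Real.log ((eval x (F j)).natAbs : ℝ) ≤ Real.log (c j) + k j * Real.log B := by
        have h5 : ((eval x (F j)).natAbs : ℝ) ≤ c j * (B : ℝ) ^ (k j) := by
          exact_mod_cast hc j B hB x hx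
        have h7 : (0 : ℝ) < ((eval x (F j)).natAbs : ℝ) := by
          exact_mod_cast Int.natAbs_pos.mpr (ha j)
        refine (Real.log_le_log h7 h5).trans (le_of_eq ?_)
        rw [Real.log_mul (by linarith) (by positivity), Real.log_pow]
      rw [hmk] at e1 ⊢
      linarith
  have htot : (∑ j, (m j : ℝ) * (1 - (s j : ℝ) / N)) * Real.log B - 3 * θ * q * Real.log B -
      ∑ j, Real.log (c j) ≤ ∑ j, (1 - (s j : ℝ) / N) *
        ∑ p ∈ Q j, Real.log p := by
    have h1 : ∀ j, (m j : ℝ) * (1 - (s j : ℝ) / N) * Real.log B - 3 * θ * Real.log B -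
        Real.log (c j) ≤ (1 - (s j : ℝ) / N) *
          ∑ p ∈ Q j, Real.log p := by
      intro j
      have h2 := mul_le_mul_of_nonneg_left (hj j) (hs' j).1
      refine le_trans ?_ h2
      have h3 : 0 ≤ Real.log (c j) := Real.log_natCast_nonneg _
      have h4 : 0 ≤ 3 * θ * Real.log B := by positivity
      have h5 := (hs' j).2
      nlinarith
    refine le_trans (le_of_eq ?_) (Finset.sum_le_sum fun j _ => h1 j)
    rw [Finset.sum_sub_distrib, Finset.sum_sub_distrib, Finset.sum_mul, Finset.sum_const,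
      Finset.card_univ, Fintype.card_fin, nsmul_eq_mul]
    ring
  have h8 : 3 * θ * q ≤ Δ / 4 := by
    rw [hθ]
    have hq : (0 : ℝ) ≤ q := Nat.cast_nonneg q
    rw [← mul_div_assoc, div_mul_eq_mul_div, div_le_div_iff₀ (by positivity) (by norm_num)]
    nlinarith
  have h9 := hB₀ B hBB
  have h10 : 3 * θ * q * Real.log B ≤ Δ / 4 * Real.log B := mul_le_mul_of_nonneg_right h8 hlogB
  have h12 : (S.card + 1) * ε * Real.log B ≤ Δ / 4 * Real.log B :=
    mul_le_mul_of_nonneg_right hεS hlogB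
  have h11 : (∑ j, (m j : ℝ) * (1 - (s j : ℝ) / N)) = κ + Δ := by rw [hΔ]; ring
  rw [h11] at htot
  linarith

end Pool.Agent.R366.TC
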